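import Pool.Agent.Helper20.QD.St5

/-!
# Project QD, part B (MP_d112a4_gt): module SHO (the Fuchsian representation)
-/

set_option autoImplicit false

open Filter Topology Matrix Set Metric MeasureTheory
open scoped ComplexConjugate ComplexOrder

namespace Pool.Agent.Helper28.QD

open Pool.Agent.Helper35.PM Pool.Agent.Helper20.QD

private theorem sho_uniq (A B : SL) (hA : ∀ z ∈ D, den A z ≠ 0)
    (h1 : ∀ z ∈ D, mob A z = mob B z) (h2 : ∀ z ∈ D, den A z = den B z) : A = B := by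
  have h0 : (0 : ℂ) ∈ D := mem_ball_self one_pos
  have h12 : (1 / 2 : ℂ) ∈ D := by
    rw [mem_ball_zero_iff]
    norm_num
  have hn : ∀ z ∈ D, (A : Mat) 0 0 * z + (A : Mat) 0 1 = (B : Mat) 0 0 * z + (B : Mat) 0 1 := by
    intro z hz
    have e1 := h1 z hz
    have e2 := h2 z hz
    have e3 := hA z hz
    unfold den at e2 e3
    unfold mob at e1
    rw [← e2, div_left_inj' e3] at e1
    exact e1
  have a1 := h2 0 h0
  have a2 := h2 _ h12
  have b1 := hn 0 h0
  have b2 := hn _ h12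
  unfold den at a1 a2
  simp only [mul_zero, zero_add] at a1 b1
  rw [a1] at a2
  rw [b1] at b2
  have a3 : (A : Mat) 1 0 = (B : Mat) 1 0 := by linear_combination 2 * a2
  have b3 : (A : Mat) 0 0 = (B : Mat) 0 0 := by linear_combination 2 * b2
  ext i j
  fin_cases i <;> fin_cases j
  · exact b3
  · exact b1
  · exact a3
  · exact a1

theorem hSHO (hTCV : StTCV) (hRIJ : StRIJ) (hRAU : StRAU) (hSUB : StSUB) : StSHO := by
  intro Γ _ ρ f hρ hf hinj himg
  obtain ⟨sub1, _, _, sub4, sub5, _⟩ := hSUB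
  have hDo : IsOpen D := isOpen_ball
  obtain ⟨hf', _, g, hg, hgf⟩ := hRIJ D f hDo hf hinj
  rw [himg] at hg
  have hdc : ContinuousOn (deriv f) D := (hf.deriv hDo).continuousOn
  obtain ⟨G, hG, hGe⟩ := hTCV D (deriv f) (convex_ball _ _) hdc hf'
  set s : ℂ → ℂ := fun z => Complex.exp (G z / 2) with hs
  have hsc : ContinuousOn s D := (hG.div_const 2).cexp
  have hs0 : ∀ z, s z ≠ 0 := fun z => Complex.exp_ne_zero _
  have hs2 : ∀ z ∈ D, s z ^ 2 = deriv f z := by
    intro z hz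
    rw [hGe z hz, hs]
    simp only
    rw [← Complex.exp_nat_mul]
    congr 1
    push_cast
    ring
  have hfin : ∀ z ∈ D, f z ∈ inn (Lam ρ) := by
    intro z hz
    rw [← himg]
    exact mem_image_of_mem f hz
  set h : Γ → ℂ → ℂ := fun γ z => g (mob (ρ γ) (f z)) with hh
  have hden : ∀ γ, ∀ z ∈ D, den (ρ γ) (f z) ≠ 0 := fun γ z hz => (hρ.side γ _ (hfin z hz)).1
  have ha : ∀ γ, ∀ z ∈ D, h γ z ∈ D ∧ f (h γ z) = mob (ρ γ) (f z) := by
    intro γ z hz
    have h1 := (hρ.side γ _ (hfin z hz)).2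
    rw [← himg] at h1
    obtain ⟨z', hz', he⟩ := h1
    have h2 : h γ z = z' := by
      rw [hh]
      simp only
      rw [← he, hgf z' hz']
    rw [h2]
    exact ⟨hz', he⟩
  have hb : ∀ γ δ, ∀ z ∈ D, h (γ * δ) z = h γ (h δ z) := by
    intro γ δ z hz
    have h1 := ha δ z hz
    have h2 := ha γ _ h1.1
    have h3 := ha (γ * δ) z hz
    apply hinj h3.1 h2.1
    rw [h3.2, h2.2, h1.2, map_mul, (sub4 (ρ γ) (ρ δ) (f z) (hden δ z hz)).1]
  have hc : ∀ z ∈ D, h 1 z = z := by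
    intro z hz
    have h3 := ha 1 z hz
    apply hinj h3.1 hz
    rw [h3.2, map_one]
    unfold mob
    simp
  have hinv : ∀ γ, ∀ z ∈ D, h γ⁻¹ (h γ z) = z := by
    intro γ z hz
    rw [← hb γ⁻¹ γ z hz, inv_mul_cancel, hc z hz]
  have hinv' : ∀ γ, ∀ z ∈ D, h γ (h γ⁻¹ z) = z := by
    intro γ z hz
    rw [← hb γ γ⁻¹ z hz, mul_inv_cancel, hc z hz]
  have hhinj : ∀ γ, InjOn (h γ) D := by
    intro γ z hz w hw e
    rw [← hinv γ z hz, e, hinv γ w hw]
  have hhimg : ∀ γ, h γ '' D = D := by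
    intro γ
    apply Subset.antisymm
    · rintro _ ⟨z, hz, rfl⟩
      exact (ha γ z hz).1
    · intro z hz
      exact ⟨h γ⁻¹ z, (ha γ⁻¹ z hz).1, hinv' γ z hz⟩
  have hhdiff : ∀ γ, DifferentiableOn ℂ (h γ) D := by
    intro γ
    have h1 : DifferentiableOn ℂ (mob (ρ γ) ∘ f) D := by
      intro z hz
      exact ((sub5 (ρ γ) (f z) (hden γ z hz)).differentiableAt.comp z
        ((hf z hz).differentiableAt (hDo.mem_nhds hz))).differentiableWithinAt
    exact hg.comp h1 (fun z hz => (hρ.side γ _ (hfin z hz)).2)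
  have hderiv : ∀ γ, ∀ z ∈ D,
      deriv f (h γ z) * deriv (h γ) z = (den (ρ γ) (f z) ^ 2)⁻¹ * deriv f z := by
    intro γ z hz
    have e1 : HasDerivAt (fun z => f (h γ z)) (deriv f (h γ z) * deriv (h γ) z) z := by
      have h1 : HasDerivAt f (deriv f (h γ z)) (h γ z) :=
        ((hf _ (ha γ z hz).1).differentiableAt (hDo.mem_nhds (ha γ z hz).1)).hasDerivAt
      have h2 : HasDerivAt (h γ) (deriv (h γ) z) z :=
        ((hhdiff γ z hz).differentiableAt (hDo.mem_nhds hz)).hasDerivAt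
      exact h1.comp z h2
    have e2 : HasDerivAt (fun z => mob (ρ γ) (f z)) ((den (ρ γ) (f z) ^ 2)⁻¹ * deriv f z) z :=
      (sub5 (ρ γ) (f z) (hden γ z hz)).comp z
        ((hf z hz).differentiableAt (hDo.mem_nhds hz)).hasDerivAt
    have e3 : (fun z => f (h γ z)) =ᶠ[𝓝 z] (fun z => mob (ρ γ) (f z)) := by
      filter_upwards [hDo.mem_nhds hz] with w hw
      exact (ha γ w hw).2
    exact (e2.congr_of_eventuallyEq e3).unique e1 |>.symm
  set j : Γ → ℂ → ℂ := fun γ z => den (ρ γ) (f z) * s (h γ z) / s z with hj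
  have hjc : ∀ γ, ContinuousOn (j γ) D := by
    intro γ
    refine ContinuousOn.div (ContinuousOn.mul ?_ ?_) hsc (fun z _ => hs0 z)
    · unfold den
      exact (continuousOn_const.mul hf.continuousOn).add continuousOn_const
    · exact hsc.comp (hhdiff γ).continuousOn (fun z hz => (ha γ z hz).1)
  have hj2 : ∀ γ, ∀ z ∈ D, j γ z ^ 2 * deriv (h γ) z = 1 := by
    intro γ z hz
    have e1 := hderiv γ z hz
    have e2 := hs2 z hz
    have e3 := hs2 _ (ha γ z hz).1
    have e4 := hden γ z hz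
    have e5 := hs0 z
    rw [← e2, ← e3] at e1
    rw [hj]
    simp only
    field_simp at e1 ⊢
    linear_combination e1
  have hA : ∀ γ, ∃ A : SL, IsSU A ∧ ∀ z ∈ D, mob A z = h γ z ∧ den A z = j γ z := fun γ =>
    hRAU (h γ) (j γ) (hhdiff γ) (hhinj γ) (hhimg γ) (hjc γ) (hj2 γ)
  choose A hA1 hA2 using hA
  have hmul : ∀ γ δ, A (γ * δ) = A γ * A δ := by
    intro γ δ
    have hDD : ∀ z ∈ D, z ∈ DD := fun z hz => ball_subset_closedBall hz
    apply sho_uniq
    · intro z hz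
      exact (sub1 _ (hA1 (γ * δ))).2.1 z (hDD z hz)
    · intro z hz
      have h1 := ha δ z hz
      rw [(sub4 (A γ) (A δ) z ((sub1 _ (hA1 δ)).2.1 z (hDD z hz))).1, (hA2 (γ * δ) z hz).1,
        (hA2 δ z hz).1, (hA2 γ _ h1.1).1, hb γ δ z hz]
    · intro z hz
      have h1 := ha δ z hz
      rw [(sub4 (A γ) (A δ) z ((sub1 _ (hA1 δ)).2.1 z (hDD z hz))).2, (hA2 (γ * δ) z hz).2,
        (hA2 δ z hz).1, (hA2 γ _ h1.1).2, (hA2 δ z hz).2, hj]
      simp only
      rw [hb γ δ z hz, map_mul, (sub4 (ρ γ) (ρ δ) (f z) (hden δ z hz)).2, h1.2]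
      have e1 := hs0 z
      have e2 := hs0 (h δ z)
      field_simp
  refine ⟨MonoidHom.mk' A hmul, fun γ => hA1 γ, fun γ z hz => ?_⟩
  change f (mob (A γ) z) = mob (ρ γ) (f z)
  rw [(hA2 γ z hz).1, (ha γ z hz).2]

end Pool.Agent.Helper28.QD
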